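import Pool.Agent.L5helper32.GP.Defs

set_option autoImplicit false

open Finset MeasureTheory ProbabilityTheory

namespace Pool.Agent.L5helper32.GP

open Pool.Agent.L5helper32.GR (Root w pr sg Dep lev q)

theorem dep_measurable {S : Finset (ℕ × ℕ × ℕ)} {A : Set (ℕ × ℕ × ℕ → ℕ)} (hA : Dep S A) :
    MeasurableSet A := by
  have h : A = cylinder S (S.restrict '' A) := by
    ext f
    rw [mem_cylinder]
    constructor
    · intro hf
      exact ⟨f, hf, rfl⟩
    · rintro ⟨g, hg, hgf⟩
      refine (hA g f fun i hi => ?_).1 hg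
      exact congrFun hgf ⟨i, hi⟩
  rw [h]
  exact MeasurableSet.cylinder S (MeasurableSet.of_discrete)

/-- A property which has conditional probability at least `c` under all conditions on finitely many
digits is almost sure. -/
theorem zero_one {Ω : Type} [MeasurableSpace Ω] {μ : Measure Ω} [IsProbabilityMeasure μ]
    {T : ℕ × ℕ × ℕ → Ω → ℕ} (hm : ∀ i, Measurable (T i)) {A : Set (ℕ × ℕ × ℕ → ℕ)} (hA : MeasurableSet A)
    {c : ℝ} (hc : 0 < c)
    (h : ∀ (m : ℕ) (B : Set (ℕ × ℕ × ℕ → ℕ)), Dep (bx (range m) m) B →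
      c * Pr μ T B ≤ Pr μ T (B ∩ A)) :
    ∀ᵐ ω ∂μ, (fun i => T i ω) ∈ A := by
  have hX : Measurable (fun (ω : Ω) (i : ℕ × ℕ × ℕ) => T i ω) := measurable_pi_lambda _ hm
  set ν : Measure (ℕ × ℕ × ℕ → ℕ) := μ.map (fun (ω : Ω) (i : ℕ × ℕ × ℕ) => T i ω) with hν
  haveI : IsProbabilityMeasure ν := Measure.isProbabilityMeasure_map hX.aemeasurable
  have hPr : ∀ B : Set (ℕ × ℕ × ℕ → ℕ), MeasurableSet B → Pr μ T B = ν.real B := by
    intro B hB
    rw [hν, map_measureReal_apply hX hB]
    rfl
  have key : ∀ e : ℝ, 0 < e → ν.real Aᶜ ≤ e / c + e := by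
    intro e he
    obtain ⟨t, ht, hlt⟩ := exists_measure_symmDiff_lt_of_generateFrom_isSetRing (μ := ν)
      (C := measurableCylinders (fun _ : ℕ × ℕ × ℕ => ℕ)) isSetRing_measurableCylinders
      ⟨{Set.univ}, Set.countable_singleton _, by
        simpa using univ_mem_measurableCylinders (fun _ : ℕ × ℕ × ℕ => ℕ), by simp⟩
      generateFrom_measurableCylinders.symm hA.compl
      (ε := ENNReal.ofReal e) (ENNReal.ofReal_pos.2 he)
    have htm : MeasurableSet t := MeasurableSet.of_mem_measurableCylinders ht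
    obtain ⟨s, S, hS, rfl⟩ := (mem_measurableCylinders t).1 ht
    have hd : Dep (bx (range ((s.sup fun i => max i.1 (max i.2.1 i.2.2)) + 1))
        ((s.sup fun i => max i.1 (max i.2.1 i.2.2)) + 1)) (cylinder s S) := by
      intro f g hfg
      rw [mem_cylinder, mem_cylinder]
      have : s.restrict f = s.restrict g := by
        funext i
        refine hfg i.1 ?_
        have h1 : max i.1.1 (max i.1.2.1 i.1.2.2) ≤
            s.sup fun i => max i.1 (max i.2.1 i.2.2) :=
          Finset.le_sup (f := fun i : ℕ × ℕ × ℕ => max i.1 (max i.2.1 i.2.2)) i.2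
        rw [bx, mem_product, mem_product, mem_range, mem_range, mem_range]
        have h2 := le_max_left i.1.1 (max i.1.2.1 i.1.2.2)
        have h3 := le_max_right i.1.1 (max i.1.2.1 i.1.2.2)
        have h4 := le_max_left i.1.2.1 i.1.2.2
        have h5 := le_max_right i.1.2.1 i.1.2.2
        omega
      rw [this]
    have h1 := h _ _ hd
    rw [hPr _ htm, hPr _ (htm.inter hA)] at h1
    have hlt' : ν.real (symmDiff (cylinder s S) Aᶜ) < e := by
      rw [measureReal_def]
      exact (ENNReal.toReal_lt_of_lt_ofReal hlt)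
    have h2 : ν.real (cylinder s S ∩ A) ≤ ν.real (symmDiff (cylinder s S) Aᶜ) := by
      refine measureReal_mono ?_ (measure_ne_top _ _)
      rintro x ⟨hx, hxA⟩
      exact Or.inl ⟨hx, fun hx' => hx' hxA⟩
    have h3 : ν.real Aᶜ ≤ ν.real (cylinder s S) + ν.real (symmDiff (cylinder s S) Aᶜ) := by
      refine (measureReal_mono (s₂ := cylinder s S ∪ symmDiff (cylinder s S) Aᶜ) ?_
        (measure_ne_top _ _)).trans (measureReal_union_le _ _)
      intro x hx
      by_cases hxt : x ∈ cylinder s S
      · exact Or.inl hxt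
      · exact Or.inr (Or.inr ⟨hx, hxt⟩)
    have h4 : ν.real (cylinder s S) ≤ e / c := by
      rw [le_div_iff₀ hc]
      linarith
    linarith
  have hz : ν.real Aᶜ ≤ 0 := by
    refine le_of_forall_pos_le_add fun e he => ?_
    have h1 := key (e / (1 / c + 1)) (by positivity)
    have h2 : e / (1 / c + 1) / c + e / (1 / c + 1) = e := by
      field_simp
    rw [h2] at h1
    linarith
  have h0 : ν Aᶜ = 0 := by
    have : ν.real Aᶜ = 0 := le_antisymm hz measureReal_nonneg
    rwa [measureReal_eq_zero_iff (measure_ne_top _ _)] at this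
  rw [hν, Measure.map_apply hX hA.compl] at h0
  exact h0

end Pool.Agent.L5helper32.GP
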